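import Mathlib

/-!
# A random substitution subshift whose shift has a square root in the automorphism group
-/

namespace Pool.Agent.Results.MP_0ef12e_an.RootOfShift

section Defs

variable {A : Type}

/-- A random substitution: each letter is sent to a nonempty finite set of nonempty words. -/
def IsRandomSubstitution (θ : A → Set (List A)) : Prop :=
  ∀ a, (θ a).Nonempty ∧ (θ a).Finite ∧ ∀ u ∈ θ a, u ≠ []

/-- `ϑ(u)` for a word `u`. -/
def wordImage (θ : A → Set (List A)) : List A → Set (List A)
  | [] => {[]}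
  | a :: u => Set.image2 (· ++ ·) (θ a) (wordImage θ u)

/-- `ϑ(S)` for a set `S` of words. -/
def setImage (θ : A → Set (List A)) (S : Set (List A)) : Set (List A) :=
  {v | ∃ u ∈ S, v ∈ wordImage θ u}

/-- `ϑ^p(S)` for a set `S` of words. -/
def iter (θ : A → Set (List A)) : ℕ → Set (List A) → Set (List A)
  | 0, S => S
  | p + 1, S => setImage θ (iter θ p S)

/-- Legal words. -/
def Legal (θ : A → Set (List A)) (u : List A) : Prop :=
  ∃ (a : A) (p : ℕ), ∃ v ∈ iter θ p {[a]}, u <:+: v

/-- The word `x_i x_{i+1} ⋯ x_{i+n-1}`. -/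
def subword (x : ℤ → A) (i : ℤ) (n : ℕ) : List A := List.ofFn fun j : Fin n => x (i + (j : ℕ))

/-- The RS-subshift `X_ϑ`. -/
def rsSubshift (θ : A → Set (List A)) : Set (ℤ → A) := {x | ∀ i n, Legal θ (subword x i n)}

/-- All words in `ϑ(a)` contain each letter the same number of times. -/
def Compatible [DecidableEq A] (θ : A → Set (List A)) : Prop :=
  ∀ a, ∀ u ∈ θ a, ∀ v ∈ θ a, ∀ b, u.count b = v.count b

/-- For some `p ≥ 1` every letter `a` occurs in some word of `ϑ^p(b)`, for all `b`. -/
def Primitive (θ : A → Set (List A)) : Prop :=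
  ∃ p : ℕ, 1 ≤ p ∧ ∀ a b : A, ∃ w ∈ iter θ p {[b]}, a ∈ w

/-- Some `ϑ(a)` has at least two elements. -/
def NonDegenerate (θ : A → Set (List A)) : Prop := ∃ a, (θ a).Nontrivial

/-- `z ∈ ϑ(y)`: `z = ⋯ u_{-1}.u_0 u_1 ⋯` with `u_i ∈ ϑ(y_i)`; the word `u_i` starts at the
coordinate `s_i`, and `s_0 = 0`. -/
def InImage (θ : A → Set (List A)) (y z : ℤ → A) : Prop :=
  ∃ (u : ℤ → List A) (s : ℤ → ℤ), s 0 = 0 ∧ (∀ i, s (i + 1) = s i + (u i).length) ∧
    (∀ i, u i ∈ θ (y i)) ∧ ∀ (i : ℤ) (j : ℕ) (h : j < (u i).length), z (s i + j) = (u i)[j]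

/-- Recognisability (for compatible `ϑ`, where all words in `ϑ(y_0)` have the same length). -/
def Recognisable (θ : A → Set (List A)) : Prop :=
  ∀ x ∈ rsSubshift θ, ∃! p : (ℤ → A) × ℕ, p.1 ∈ rsSubshift θ ∧
    (∀ u ∈ θ (p.1 0), p.2 < u.length) ∧ InImage θ p.1 fun i => x (i - p.2)

/-- The shift. -/
def shift (x : ℤ → A) : ℤ → A := fun i => x (i + 1)

lemma shift_mem {θ : A → Set (List A)} {x : ℤ → A} (hx : x ∈ rsSubshift θ) :
    shift x ∈ rsSubshift θ := by
  intro i n
  have := hx (i + 1) n
  unfold subword at this ⊢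
  convert this using 3
  simp only [shift]
  congr 1
  ring

/-- The shift restricted to `X_ϑ`. -/
def shiftX (θ : A → Set (List A)) : rsSubshift θ → rsSubshift θ :=
  fun x => ⟨shift x.1, shift_mem x.2⟩

end Defs

/-! ### General lemmas -/

section General

variable {A : Type} {θ : A → Set (List A)}

lemma wordImage_append (u v : List A) :
    wordImage θ (u ++ v) = Set.image2 (· ++ ·) (wordImage θ u) (wordImage θ v) := by
  induction u with
  | nil => simp [wordImage]
  | cons a u ih =>
    rw [List.cons_append, wordImage, ih, wordImage, Set.image2_assoc]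
    intro a b c
    exact List.append_assoc a b c

lemma setImage_mono {S T : Set (List A)} (h : S ⊆ T) : setImage θ S ⊆ setImage θ T := by
  rintro v ⟨u, hu, hv⟩
  exact ⟨u, h hu, hv⟩

lemma iter_mono {S T : Set (List A)} (h : S ⊆ T) : ∀ p, iter θ p S ⊆ iter θ p T
  | 0 => h
  | p + 1 => setImage_mono (iter_mono h p)

lemma iter_setImage (S : Set (List A)) : ∀ p, iter θ p (setImage θ S) = iter θ (p + 1) S
  | 0 => rfl
  | p + 1 => by
    show setImage θ (iter θ p (setImage θ S)) = _
    rw [iter_setImage S p]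
    rfl

lemma append_mem_iter {u v : List A} : ∀ (p : ℕ) {u' v' : List A}, u' ∈ iter θ p {u} →
    v' ∈ iter θ p {v} → u' ++ v' ∈ iter θ p {u ++ v}
  | 0, u', v', hu, hv => by
    rw [iter, Set.mem_singleton_iff] at *
    rw [hu, hv]
  | p + 1, u', v', hu, hv => by
    obtain ⟨u₁, hu₁, hu⟩ := hu
    obtain ⟨v₁, hv₁, hv⟩ := hv
    refine ⟨u₁ ++ v₁, append_mem_iter p hu₁ hv₁, ?_⟩
    rw [wordImage_append]
    exact ⟨u', hu, v', hv, rfl⟩

lemma wordImage_length {L : ℕ} (hL : ∀ a, ∀ w ∈ θ a, w.length = L) : ∀ {u v : List A},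
    v ∈ wordImage θ u → v.length = L * u.length
  | [], v, h => by
    rw [wordImage, Set.mem_singleton_iff] at h
    simp [h]
  | a :: u, v, h => by
    obtain ⟨w, hw, w', hw', rfl⟩ := h
    simp only [List.length_append, List.length_cons, hL a w hw, wordImage_length hL hw']
    ring

lemma iter_length {L : ℕ} (hL : ∀ a, ∀ w ∈ θ a, w.length = L) {u : List A} :
    ∀ (p : ℕ) {v : List A}, v ∈ iter θ p {u} → v.length = L ^ p * u.length
  | 0, v, h => by
    rw [iter, Set.mem_singleton_iff] at h
    simp [h]
  | p + 1, v, h => by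
    obtain ⟨w, hw, h⟩ := h
    rw [wordImage_length hL h, iter_length hL p hw]
    ring

lemma wordImage_nonempty (h : ∀ a, (θ a).Nonempty) : ∀ u, (wordImage θ u).Nonempty
  | [] => ⟨[], rfl⟩
  | a :: u => (h a).image2 (wordImage_nonempty h u)

lemma iter_nonempty (h : ∀ a, (θ a).Nonempty) (u : List A) : ∀ p, (iter θ p {u}).Nonempty
  | 0 => ⟨u, rfl⟩
  | p + 1 => by
    obtain ⟨v, hv⟩ := iter_nonempty h u p
    obtain ⟨w, hw⟩ := wordImage_nonempty h v
    exact ⟨w, v, hv, hw⟩

end General

/-! ### The example -/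

/-- The auxiliary random substitution on two letters `a = false`, `b = true`:
`a ↦ {bbabaaa, bbaaaba}`, `b ↦ bbaaaaa`. -/
def ψ : Bool → Set (List Bool)
  | false => {[true, true, false, true, false, false, false],
      [true, true, false, false, false, true, false]}
  | true => {[true, true, false, false, false, false, false]}

/-- Forgetting the grouping into pairs. -/
def unchop : List (Bool × Bool) → List Bool
  | [] => []
  | p :: u => p.1 :: p.2 :: unchop u

/-- Grouping into pairs. -/
def chop : List Bool → List (Bool × Bool)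
  | a :: b :: u => (a, b) :: chop u
  | _ => []

/-- The random substitution on the four letters `aa, ab, ba, bb`: the words `ψ(x)ψ(y)` of length
`14` are read as words of length `7` over the alphabet of pairs. -/
def θ (c : Bool × Bool) : Set (List (Bool × Bool)) :=
  Set.image2 (fun u v => chop (u ++ v)) (ψ c.1) (ψ c.2)

lemma chop_unchop : ∀ u, chop (unchop u) = u
  | [] => rfl
  | p :: u => by rw [unchop, chop, chop_unchop u]

lemma unchop_chop : ∀ u : List Bool, Even u.length → unchop (chop u) = u
  | [], _ => rfl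
  | [a], h => by simp at h
  | a :: b :: u, h => by
    rw [chop, unchop, unchop_chop u]
    simp only [List.length_cons, Nat.even_add_one, not_not] at h
    exact h

lemma unchop_append : ∀ u v, unchop (u ++ v) = unchop u ++ unchop v
  | [], v => rfl
  | p :: u, v => by rw [List.cons_append, unchop, unchop_append u v, unchop]; rfl

lemma unchop_length : ∀ u, (unchop u).length = 2 * u.length
  | [] => rfl
  | p :: u => by simp only [unchop, List.length_cons, unchop_length u]; ring

lemma unchop_injective : Function.Injective unchop := fun u v h => by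
  rw [← chop_unchop u, h, chop_unchop]

lemma ψ_length : ∀ a, ∀ w ∈ ψ a, w.length = 7 := by
  rintro (_ | _) w h
  · rcases h with rfl | rfl <;> rfl
  · rcases h with rfl
    rfl

lemma ψ_nonempty : ∀ a, (ψ a).Nonempty
  | false => ⟨_, Or.inl rfl⟩
  | true => ⟨_, rfl⟩

lemma mem_θ_iff (c : Bool × Bool) (w : List (Bool × Bool)) :
    w ∈ θ c ↔ unchop w ∈ Set.image2 (· ++ ·) (ψ c.1) (ψ c.2) := by
  constructor
  · rintro ⟨u, hu, v, hv, rfl⟩
    rw [unchop_chop _ (by rw [List.length_append, ψ_length _ u hu, ψ_length _ v hv]; decide)]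
    exact ⟨u, hu, v, hv, rfl⟩
  · rintro ⟨u, hu, v, hv, h⟩
    refine ⟨u, hu, v, hv, ?_⟩
    show chop (u ++ v) = w
    have h' : u ++ v = unchop w := h
    rw [h', chop_unchop]

lemma θ_length : ∀ c, ∀ w ∈ θ c, w.length = 7 := by
  intro c w hw
  rw [mem_θ_iff] at hw
  obtain ⟨u, hu, v, hv, h⟩ := hw
  have h1 := congrArg List.length h
  have h' : (u ++ v).length = (unchop w).length := h1
  rw [List.length_append, ψ_length _ u hu, ψ_length _ v hv, unchop_length] at h'
  omega

lemma mem_wordImage_iff : ∀ (u v : List (Bool × Bool)),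
    v ∈ wordImage θ u ↔ unchop v ∈ wordImage ψ (unchop u)
  | [], v => by
    simp only [wordImage, unchop, Set.mem_singleton_iff]
    constructor
    · rintro rfl
      rfl
    · intro h
      rw [← chop_unchop v, h]
      rfl
  | p :: u, v => by
    simp only [wordImage, unchop]
    constructor
    · rintro ⟨w, hw, w', hw', rfl⟩
      rw [mem_θ_iff] at hw
      obtain ⟨w₁, hw₁, w₂, hw₂, h⟩ := hw
      refine ⟨w₁, hw₁, w₂ ++ unchop w', ⟨w₂, hw₂, unchop w', (mem_wordImage_iff u w').1 hw', rfl⟩,
        ?_⟩
      show w₁ ++ (w₂ ++ unchop w') = unchop (w ++ w')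
      rw [unchop_append, ← List.append_assoc]
      congr 1
    · rintro ⟨w₁, hw₁, _, ⟨w₂, hw₂, w₃, hw₃, rfl⟩, h⟩
      have h' : w₁ ++ (w₂ ++ w₃) = unchop v := h
      have e1 : Even (w₁ ++ w₂).length := by
        rw [List.length_append, ψ_length _ _ hw₁, ψ_length _ _ hw₂]; decide
      have e2 : Even w₃.length := by
        have := congrArg List.length h'
        rw [List.length_append, List.length_append, ψ_length _ _ hw₁, ψ_length _ _ hw₂,
          unchop_length] at this
        exact ⟨v.length - 7, by omega⟩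
      refine ⟨chop (w₁ ++ w₂), (mem_θ_iff _ _).2 ?_, chop w₃, (mem_wordImage_iff u _).2 ?_, ?_⟩
      · rw [unchop_chop _ e1]
        exact ⟨w₁, hw₁, w₂, hw₂, rfl⟩
      · rw [unchop_chop _ e2]
        exact hw₃
      · apply unchop_injective
        show unchop (chop (w₁ ++ w₂) ++ chop w₃) = unchop v
        rw [unchop_append, unchop_chop _ e1, unchop_chop _ e2, List.append_assoc, h']

lemma mem_iter_iff (u : List (Bool × Bool)) : ∀ (p : ℕ) (v : List (Bool × Bool)),
    v ∈ iter θ p {u} ↔ unchop v ∈ iter ψ p {unchop u}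
  | 0, v => by
    simp only [iter, Set.mem_singleton_iff]
    exact unchop_injective.eq_iff.symm
  | p + 1, v => by
    constructor
    · rintro ⟨w, hw, hv⟩
      exact ⟨unchop w, (mem_iter_iff u p w).1 hw, (mem_wordImage_iff w v).1 hv⟩
    · rintro ⟨w, hw, hv⟩
      have e : Even w.length := by
        rw [iter_length ψ_length p hw, unchop_length]
        exact (even_two_mul _).mul_left _
      rw [← unchop_chop w e] at hw hv
      exact ⟨chop w, (mem_iter_iff u p _).2 hw, (mem_wordImage_iff _ v).2 hv⟩

/-- Every `ψ^m(xy)` occurs at an odd position in `ψ^{m+1}(aa)`. -/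
lemma exists_odd (c : Bool × Bool) (m : ℕ) {W : List Bool} (hW : W ∈ iter ψ m {unchop [c]}) :
    ∃ V₁ V₂, V₁ ++ W ++ V₂ ∈ iter ψ (m + 1) {unchop [(false, false)]} ∧ Odd V₁.length := by
  obtain ⟨u₁, u₂, h, ho⟩ : ∃ u₁ u₂ : List Bool, u₁ ++ unchop [c] ++ u₂ =
      [true, true, false, true, false, false, false] ++
      [true, true, false, true, false, false, false] ∧ Odd u₁.length := by
    rcases c with ⟨_ | _, _ | _⟩
    · exact ⟨[true, true, false, true, false], [true, true, false, true, false, false, false],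
        rfl, by decide⟩
    · exact ⟨[true, true, false, true, false, false, false, true, true],
        [false, false, false], rfl, by decide⟩
    · exact ⟨[true],
        [true, false, false, false, true, true, false, true, false, false, false],
        rfl, by decide⟩
    · exact ⟨[true, true, false, true, false, false, false],
        [false, true, false, false, false], rfl, by decide⟩
  obtain ⟨V₁, h1⟩ := iter_nonempty ψ_nonempty u₁ m
  obtain ⟨V₂, h2⟩ := iter_nonempty ψ_nonempty u₂ m
  refine ⟨V₁, V₂, ?_, ?_⟩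
  · rw [← iter_setImage]
    have h3 := append_mem_iter m (append_mem_iter m h1 hW) h2
    rw [h] at h3
    refine iter_mono ?_ m h3
    rintro _ rfl
    refine ⟨_, rfl, ?_⟩
    refine ⟨_, Or.inl rfl, _, ⟨_, Or.inl rfl, _, rfl, rfl⟩, rfl⟩
  · rw [iter_length ψ_length m h1]
    exact (Odd.pow (by decide)).mul ho

/-- The word `q_j = ((p_j)_2, (p_{j+1})_1)`. -/
def slide : Bool × Bool → List (Bool × Bool) → List (Bool × Bool)
  | _, [] => []
  | c, p :: u => (c.2, p.1) :: slide p u

lemma unchop_slide : ∀ (c : Bool × Bool) (u : List (Bool × Bool)),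
    ∃ e, unchop (c :: u) = c.1 :: unchop (slide c u) ++ [e]
  | c, [] => ⟨c.2, rfl⟩
  | c, p :: u => by
    obtain ⟨e, he⟩ := unchop_slide p u
    refine ⟨e, ?_⟩
    rw [unchop, he]
    rfl

lemma legal_slide {c : Bool × Bool} {u : List (Bool × Bool)} (h : Legal θ (c :: u)) :
    Legal θ (slide c u) := by
  obtain ⟨a, m, v, hv, v₁, v₂, rfl⟩ := h
  rw [mem_iter_iff] at hv
  obtain ⟨V₁, V₂, hV, ho⟩ := exists_odd a m hv
  obtain ⟨e, he⟩ := unchop_slide c u
  have h1 : V₁ ++ unchop (v₁ ++ (c :: u) ++ v₂) ++ V₂ =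
      (V₁ ++ unchop v₁ ++ [c.1]) ++ unchop (slide c u) ++ ([e] ++ unchop v₂ ++ V₂) := by
    rw [unchop_append, unchop_append, he]
    simp
  have e1 : Even (V₁ ++ unchop v₁ ++ [c.1]).length := by
    simp only [List.length_append, unchop_length, List.length_singleton]
    obtain ⟨k, hk⟩ := ho
    exact ⟨k + v₁.length + 1, by omega⟩
  have e2 : Even ([e] ++ unchop v₂ ++ V₂).length := by
    have h2 := iter_length ψ_length (m + 1) hV
    rw [h1] at h2
    obtain ⟨k, hk⟩ := e1
    have h3 : Even (7 ^ (m + 1) * (unchop [(false, false)]).length) := by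
      rw [unchop_length]
      exact (even_two_mul _).mul_left _
    obtain ⟨k', hk'⟩ := h3
    rw [hk', List.length_append, List.length_append, hk, unchop_length] at h2
    exact ⟨k' - k - (slide c u).length, by omega⟩
  rw [h1, ← unchop_chop _ e1, ← unchop_chop _ e2, ← unchop_append, ← unchop_append,
    ← mem_iter_iff] at hV
  exact ⟨_, m + 1, _, hV, _, _, rfl⟩

/-- The square root of the shift. -/
def root (x : ℤ → Bool × Bool) : ℤ → Bool × Bool := fun i => ((x i).2, (x (i + 1)).1)

lemma subword_succ {A : Type} (x : ℤ → A) (i : ℤ) (n : ℕ) :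
    subword x i (n + 1) = x i :: subword x (i + 1) n := by
  unfold subword
  rw [List.ofFn_succ]
  congr 1
  · simp
  · congr 1
    funext j
    congr 1
    push_cast [Fin.val_succ]
    ring

lemma subword_root (x : ℤ → Bool × Bool) : ∀ (i : ℤ) (n : ℕ),
    subword (root x) i n = slide (x i) (subword x (i + 1) n)
  | i, 0 => rfl
  | i, n + 1 => by
    rw [subword_succ, subword_succ, slide, subword_root x (i + 1) n]
    rfl

lemma root_mem {x : ℤ → Bool × Bool} (hx : x ∈ rsSubshift θ) : root x ∈ rsSubshift θ := by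
  intro i n
  rw [subword_root]
  apply legal_slide
  rw [← subword_succ]
  exact hx i (n + 1)

lemma unshift_mem {A : Type} {θ : A → Set (List A)} {x : ℤ → A} (hx : x ∈ rsSubshift θ) :
    (fun i => x (i - 1)) ∈ rsSubshift θ := by
  intro i n
  have := hx (i - 1) n
  unfold subword at this ⊢
  convert this using 3
  ring_nf

lemma root_root (x : ℤ → Bool × Bool) : root (root x) = shift x := rfl

/-! ### Recognisability -/

/-- Decoding a word of length `7`. -/
def dec (w : List (Bool × Bool)) : Bool × Bool :=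
  (decide (w[1]? = some (false, false) ∧ w[2]? = some (false, false)),
    decide (w[5]? = some (false, false) ∧ w[6]? = some (false, false)))

lemma dec_eq {c : Bool × Bool} {w : List (Bool × Bool)} (h : w ∈ θ c) : dec w = c := by
  obtain ⟨u, hu, v, hv, rfl⟩ := h
  rcases c with ⟨_ | _, _ | _⟩
  · rcases hu with rfl | rfl <;> rcases hv with rfl | rfl <;> decide
  · rcases hu with rfl | rfl <;> rcases hv with rfl <;> decide
  · rcases hu with rfl <;> rcases hv with rfl | rfl <;> decide
  · rcases hu with rfl; rcases hv with rfl; decide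

lemma marker {c : Bool × Bool} {w : List (Bool × Bool)} (h : w ∈ θ c) :
    ∀ i < 7, w[i]? = some (true, true) ↔ i = 0 := by
  obtain ⟨u, hu, v, hv, rfl⟩ := h
  rcases c with ⟨_ | _, _ | _⟩
  · rcases hu with rfl | rfl <;> rcases hv with rfl | rfl <;> decide
  · rcases hu with rfl | rfl <;> rcases hv with rfl <;> decide
  · rcases hu with rfl <;> rcases hv with rfl | rfl <;> decide
  · rcases hu with rfl; rcases hv with rfl; decide

lemma marker_wordImage : ∀ {u v : List (Bool × Bool)}, v ∈ wordImage θ u →
    ∀ n, n < v.length → (v[n]? = some (true, true) ↔ 7 ∣ n)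
  | [], v, h, n, hn => by
    rw [wordImage, Set.mem_singleton_iff] at h
    simp [h] at hn
  | a :: u, v, h, n, hn => by
    obtain ⟨w, hw, w', hw', rfl⟩ := h
    have hl := θ_length a w hw
    show (w ++ w')[n]? = _ ↔ _
    by_cases h7 : n < 7
    · rw [List.getElem?_append_left (by omega), marker hw n h7]
      constructor
      · rintro rfl; exact dvd_zero _
      · intro h; exact Nat.eq_zero_of_dvd_of_lt h h7
    · have hn' : n < (w ++ w').length := hn
      rw [List.length_append] at hn'
      rw [List.getElem?_append_right (by omega), hl, marker_wordImage hw' (n - 7) (by omega)]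
      omega

lemma block_wordImage : ∀ {u v : List (Bool × Bool)}, v ∈ wordImage θ u →
    ∀ i c, u[i]? = some c → ∃ w ∈ θ c, ∀ j < 7, v[7 * i + j]? = w[j]?
  | [], v, h, i, c, hi => by simp at hi
  | a :: u, v, h, i, c, hi => by
    obtain ⟨w, hw, w', hw', rfl⟩ := h
    have hl := θ_length a w hw
    cases i with
    | zero =>
      simp only [List.getElem?_cons_zero, Option.some.injEq] at hi
      subst hi
      refine ⟨w, hw, fun j hj => ?_⟩
      show (w ++ w')[7 * 0 + j]? = _
      rw [List.getElem?_append_left (by omega)]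
      congr 1
      omega
    | succ i =>
      simp only [List.getElem?_cons_succ] at hi
      obtain ⟨w₁, hw₁, h₁⟩ := block_wordImage hw' i c hi
      refine ⟨w₁, hw₁, fun j hj => ?_⟩
      show (w ++ w')[7 * (i + 1) + j]? = _
      rw [List.getElem?_append_right (by omega), ← h₁ j hj]
      congr 1
      omega

lemma subword_getElem? {A : Type} (x : ℤ → A) (i : ℤ) (n l : ℕ) (h : l < n) :
    (subword x i n)[l]? = some (x (i + l)) := by
  unfold subword
  rw [List.getElem?_ofFn]
  simp [h]

lemma subword_length {A : Type} (x : ℤ → A) (i : ℤ) (n : ℕ) : (subword x i n).length = n := by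
  simp [subword]

lemma exists_local {x : ℤ → Bool × Bool} (hx : x ∈ rsSubshift θ) (N : ℕ) (hN : 1 ≤ N) :
    ∃ (u v : List (Bool × Bool)) (t : ℤ), Legal θ u ∧ v ∈ wordImage θ u ∧
      ∀ i : ℤ, -N ≤ i → i ≤ N → 0 ≤ t + i ∧ v[(t + i).toNat]? = some (x i) := by
  obtain ⟨a, m, v, hv, v₁, v₂, rfl⟩ := hx (-N) (2 * N + 1)
  cases m with
  | zero =>
    rw [iter, Set.mem_singleton_iff] at hv
    have := congrArg List.length hv
    simp only [List.length_append, subword_length, List.length_singleton] at this
    omega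
  | succ m =>
    obtain ⟨u, hu, hv⟩ := hv
    refine ⟨u, _, v₁.length + N, ⟨a, m, u, hu, List.infix_rfl⟩, hv, fun i h1 h2 => ⟨by omega, ?_⟩⟩
    rw [List.append_assoc, List.getElem?_append_right (by omega),
      List.getElem?_append_left (by rw [subword_length]; omega),
      subword_getElem? _ _ _ _ (by omega)]
    congr 2
    omega

lemma exists_phase {x : ℤ → Bool × Bool} (hx : x ∈ rsSubshift θ) :
    ∃ k : ℕ, k < 7 ∧ ∀ i : ℤ, x i = (true, true) ↔ (7 : ℤ) ∣ i + k := by
  have key : ∀ (N : ℕ), 1 ≤ N → ∃ t : ℤ, ∀ i : ℤ, -N ≤ i → i ≤ N →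
      (x i = (true, true) ↔ (7 : ℤ) ∣ i + t) := by
    intro N hN
    obtain ⟨u, v, t, -, hv, h⟩ := exists_local hx N hN
    refine ⟨t, fun i h1 h2 => ?_⟩
    obtain ⟨h3, h4⟩ := h i h1 h2
    have h5 : (t + i).toNat < v.length := (List.getElem?_eq_some_iff.1 h4).1
    have h6 := marker_wordImage hv _ h5
    rw [h4, Option.some.injEq] at h6
    rw [h6]
    omega
  obtain ⟨t, ht⟩ := key 7 (by norm_num)
  refine ⟨(t % 7).toNat, by omega, fun i => ?_⟩
  obtain ⟨t', ht'⟩ := key (7 + i.natAbs) (by omega)
  have h1 := ht (-(t % 7)) (by omega) (by omega)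
  have h2 := ht' (-(t % 7)) (by omega) (by omega)
  have h3 := ht' i (by omega) (by omega)
  have h4 : (7 : ℤ) ∣ -(t % 7) + t := by omega
  have h5 : (7 : ℤ) ∣ -(t % 7) + t' := h2.1 (h1.2 h4)
  rw [h3]
  omega

lemma word_eq_subword {x : ℤ → Bool × Bool} {i : ℤ} {w : List (Bool × Bool)} (hl : w.length = 7)
    (h : ∀ j < 7, w[j]? = some (x (i + (j : ℕ)))) : w = subword x i 7 := by
  apply List.ext_getElem?
  intro j
  by_cases hj : j < 7
  · rw [h j hj, subword_getElem? _ _ _ _ hj]
  · rw [List.getElem?_eq_none (by omega), List.getElem?_eq_none (by rw [subword_length]; omega)]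

/-- The desubstituted point. -/
def desub (x : ℤ → Bool × Bool) (k : ℕ) : ℤ → Bool × Bool := fun j => dec (subword x (7 * j - k) 7)

lemma exists_desub {x : ℤ → Bool × Bool} (hx : x ∈ rsSubshift θ) {k : ℕ} (hk7 : k < 7)
    (hk : ∀ i : ℤ, x i = (true, true) ↔ (7 : ℤ) ∣ i + k) (M : ℕ) :
    ∃ (u : List (Bool × Bool)) (s : ℤ), Legal θ u ∧ ∀ j : ℤ, -M ≤ j → j ≤ M →
      0 ≤ s + j ∧ u[(s + j).toNat]? = some (desub x k j) ∧
      subword x (7 * j - k) 7 ∈ θ (desub x k j) := by
  obtain ⟨u, v, t, hu, hv, h⟩ := exists_local hx (7 * M + 14) (by omega)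
  have hlen := wordImage_length θ_length hv
  have ht : (7 : ℤ) ∣ t - k := by
    obtain ⟨h3, h4⟩ := h (-k) (by omega) (by omega)
    have h5 : (t + -k).toNat < v.length := (List.getElem?_eq_some_iff.1 h4).1
    have h6 := marker_wordImage hv _ h5
    rw [h4, Option.some.injEq, hk] at h6
    have h7 : (7 : ℤ) ∣ -(k : ℤ) + k := by rw [neg_add_cancel]; exact dvd_zero _
    have h8 := h6.1 h7
    omega
  obtain ⟨s, hs⟩ := ht
  refine ⟨u, s, hu, fun j h1 h2 => ?_⟩
  have hb : ∀ l : ℕ, l < 7 → 0 ≤ s + j ∧ v[7 * (s + j).toNat + l]? = some (x (7 * j - k + l)) := by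
    intro l hl
    obtain ⟨h3, h4⟩ := h (7 * j - k + l) (by omega) (by omega)
    refine ⟨by omega, ?_⟩
    rw [← h4]
    congr 1
    omega
  have h0 : 0 ≤ s + j := (hb 0 (by norm_num)).1
  have h3 : (s + j).toNat < u.length := by
    have h4 := (List.getElem?_eq_some_iff.1 (hb 0 (by norm_num)).2).1
    omega
  obtain ⟨w, hw, hwv⟩ := block_wordImage hv (s + j).toNat _ (List.getElem?_eq_getElem h3)
  have h5 : w = subword x (7 * j - k) 7 := by
    apply word_eq_subword (θ_length _ w hw)
    intro l hl
    rw [← hwv l hl, (hb l hl).2]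
  have h6 : desub x k j = u[(s + j).toNat] := by
    rw [← dec_eq hw, h5]
    rfl
  refine ⟨h0, ?_, ?_⟩
  · rw [h6]
    exact List.getElem?_eq_getElem h3
  · rw [h6, ← h5]
    exact hw

lemma desub_mem {x : ℤ → Bool × Bool} (hx : x ∈ rsSubshift θ) {k : ℕ} (hk7 : k < 7)
    (hk : ∀ i : ℤ, x i = (true, true) ↔ (7 : ℤ) ∣ i + k) : desub x k ∈ rsSubshift θ := by
  intro i n
  obtain ⟨u, s, ⟨a, p, v, hv, hu⟩, h⟩ := exists_desub hx hk7 hk (i.natAbs + n)
  refine ⟨a, p, v, hv, List.IsInfix.trans ?_ hu⟩
  have h0 : 0 ≤ s + i := (h i (by omega) (by omega)).1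
  have : subword (desub x k) i n = (u.drop (s + i).toNat).take n := by
    apply List.ext_getElem?
    intro l
    by_cases hl : l < n
    · rw [subword_getElem? _ _ _ _ hl, List.getElem?_take, if_pos hl, List.getElem?_drop,
        ← (h (i + l) (by omega) (by omega)).2.1]
      congr 1
      omega
    · rw [List.getElem?_eq_none (by rw [subword_length]; omega), List.getElem?_take, if_neg hl]
  rw [this]
  exact (List.take_prefix _ _).isInfix.trans (List.drop_suffix _ _).isInfix

lemma recognisable : Recognisable θ := by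
  intro x hx
  obtain ⟨k, hk7, hk⟩ := exists_phase hx
  have hblock : ∀ j : ℤ, subword x (7 * j - k) 7 ∈ θ (desub x k j) := by
    intro j
    obtain ⟨u, s, -, h⟩ := exists_desub hx hk7 hk j.natAbs
    exact (h j (by omega) (by omega)).2.2
  refine ⟨(desub x k, k), ⟨desub_mem hx hk7 hk, ?_, ?_⟩, ?_⟩
  · intro u hu
    rw [θ_length _ u hu]
    exact hk7
  · refine ⟨fun j => subword x (7 * j - k) 7, fun j => 7 * j, rfl, fun j => ?_, hblock,
      fun j l hl => ?_⟩
    · rw [subword_length]
      push_cast
      ring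
    · rw [subword_length] at hl
      have := subword_getElem? x (7 * j - k) 7 l hl
      rw [List.getElem?_eq_getElem (by rw [subword_length]; exact hl), Option.some.injEq] at this
      rw [this]
      ring_nf
  · rintro ⟨y, k'⟩ ⟨hy, hk', u, s, hs0, hs, hu, hz⟩
    dsimp only at hy hk' hu hz
    have hlen : ∀ j, (u j).length = 7 := fun j => θ_length _ _ (hu j)
    have hk'7 : k' < 7 := by
      have := hk' (u 0) (hu 0)
      rwa [hlen] at this
    have hs7 : ∀ j : ℤ, s j = 7 * j := by
      intro j
      induction j using Int.induction_on with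
      | zero => rw [hs0]; rfl
      | succ i ih => rw [hs, ih, hlen]; push_cast; ring
      | pred i ih =>
        have := hs (-i - 1)
        rw [sub_add_cancel, ih, hlen] at this
        push_cast at this
        linarith
    have hword : ∀ j : ℤ, u j = subword x (7 * j - k') 7 := by
      intro j
      apply word_eq_subword (hlen j)
      intro l hl
      have h1 := hz j l (by rw [hlen]; exact hl)
      rw [List.getElem?_eq_getElem (by rw [hlen]; exact hl), ← h1, hs7]
      congr 2
      ring
    have h0 : x (-k') = (true, true) := by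
      have h1 := (marker (hu 0) 0 (by norm_num)).2 rfl
      rw [hword 0, subword_getElem? _ _ _ _ (by norm_num), Option.some.injEq] at h1
      rw [← h1]
      congr 1
      simp
    have hkk : k' = k := by
      have := (hk _).1 h0
      omega
    subst hkk
    refine Prod.ext ?_ rfl
    funext j
    show y j = dec (subword x (7 * j - k') 7)
    rw [← hword, dec_eq (hu j)]

/-! ### The result -/

/-- There is a primitive, compatible, non-degenerate and recognisable random substitution (on four
letters, of constant length `7`) such that the shift has a square root in the automorphism group of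
the RS-subshift: a self-homeomorphism `f` of `X_ϑ` commuting with the shift, with `f ∘ f = σ`. -/
theorem result : ∃ θ : Bool × Bool → Set (List (Bool × Bool)),
    IsRandomSubstitution θ ∧ Primitive θ ∧ Compatible θ ∧ NonDegenerate θ ∧ Recognisable θ ∧
    ∃ f : rsSubshift θ ≃ₜ rsSubshift θ,
      (∀ x, f (shiftX θ x) = shiftX θ (f x)) ∧ ∀ x, f (f x) = shiftX θ x := by
  refine ⟨θ, ?_, ?_, ?_, ?_, recognisable, ?_⟩
  · intro c
    refine ⟨(ψ_nonempty _).image2 (ψ_nonempty _), Set.Finite.image2 _ ?_ ?_, ?_⟩
    · rcases c with ⟨_ | _, _⟩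
      · exact Set.toFinite {[true, true, false, true, false, false, false],
          [true, true, false, false, false, true, false]}
      · exact Set.finite_singleton _
    · rcases c with ⟨_, _ | _⟩
      · exact Set.toFinite {[true, true, false, true, false, false, false],
          [true, true, false, false, false, true, false]}
      · exact Set.finite_singleton _
    · intro u hu h
      have := θ_length c u hu
      simp [h] at this
  · refine ⟨1, le_rfl, fun a b => ?_⟩
    have : ∀ b : Bool × Bool, ∃ w ∈ θ b, ∀ a : Bool × Bool, a ∈ w := by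
      rintro ⟨_ | _, _ | _⟩
      · exact ⟨_, ⟨_, Or.inl rfl, _, Or.inl rfl, rfl⟩, by decide⟩
      · exact ⟨_, ⟨_, Or.inl rfl, _, rfl, rfl⟩, by decide⟩
      · exact ⟨_, ⟨_, rfl, _, Or.inl rfl, rfl⟩, by decide⟩
      · exact ⟨_, ⟨_, rfl, _, rfl, rfl⟩, by decide⟩
    obtain ⟨w, hw, h⟩ := this b
    exact ⟨w, ⟨[b], rfl, w, hw, [], rfl, List.append_nil w⟩, h a⟩
  · rintro c _ ⟨u, hu, v, hv, rfl⟩ _ ⟨u', hu', v', hv', rfl⟩
    rcases c with ⟨_ | _, _ | _⟩
    · rcases hu with rfl | rfl <;> rcases hv with rfl | rfl <;> rcases hu' with rfl | rfl <;>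
        rcases hv' with rfl | rfl <;> decide
    · rcases hu with rfl | rfl <;> rcases hv with rfl <;> rcases hu' with rfl | rfl <;>
        rcases hv' with rfl <;> decide
    · rcases hu with rfl <;> rcases hv with rfl | rfl <;> rcases hu' with rfl <;>
        rcases hv' with rfl | rfl <;> decide
    · rcases hu with rfl; rcases hv with rfl; rcases hu' with rfl; rcases hv' with rfl; decide
  · refine ⟨(false, false), chop ([true, true, false, true, false, false, false] ++
      [true, true, false, true, false, false, false]), ⟨_, Or.inl rfl, _, Or.inl rfl, rfl⟩,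
      chop ([true, true, false, false, false, true, false] ++
      [true, true, false, true, false, false, false]), ⟨_, Or.inr rfl, _, Or.inl rfl, rfl⟩, ?_⟩
    decide
  · let f : rsSubshift θ → rsSubshift θ := fun x => ⟨root x.1, root_mem x.2⟩
    let g : rsSubshift θ → rsSubshift θ := fun x => ⟨fun i => root x.1 (i - 1),
      unshift_mem (root_mem x.2)⟩
    have hroot : Continuous (root : (ℤ → Bool × Bool) → (ℤ → Bool × Bool)) := by
      unfold root
      fun_prop
    have hf : Continuous f := (hroot.comp continuous_subtype_val).subtype_mk _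
    have hg : Continuous g := by
      apply Continuous.subtype_mk
      have h1 : Continuous fun (x : ℤ → Bool × Bool) (i : ℤ) => x (i - 1) := by fun_prop
      exact h1.comp (hroot.comp continuous_subtype_val)
    refine ⟨⟨⟨f, g, ?_, ?_⟩, hf, hg⟩, ?_, ?_⟩
    · intro x
      apply Subtype.ext
      funext i
      show ((x.1 (i - 1 + 1)).1, (x.1 (i - 1 + 1)).2) = x.1 i
      rw [sub_add_cancel]
    · intro x
      apply Subtype.ext
      funext i
      show ((x.1 (i - 1 + 1)).1, (x.1 (i + 1 - 1)).2) = x.1 i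
      rw [sub_add_cancel, add_sub_cancel_right]
    · intro x
      rfl
    · intro x
      rfl

end Pool.Agent.Results.MP_0ef12e_an.RootOfShift
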